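import Pool.Agent.COSB.StmtsB
import Pool.Agent.Helper13_COS.WRA

/-!
# Squad COSB, row WDF (MP_0fc649_lc): words of matrices over `F`
-/

set_option autoImplicit false

namespace Pool.Agent.COSB.H77

open Turing Computability Pool.Agent.UT.Num Pool.Agent.H2XG Pool.Agent.PAR Pool.Agent.COS
open Pool.Agent.COSB

/-- blocks of a concatenation -/
theorem blk {α : Type} (f : α → Word) (q : ℕ) (hf : ∀ a, (f a).length = q) :
    ∀ (L : List α) (t : ℕ) (h : t < L.length), blW q (L.flatMap f) t = f L[t] := by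
  intro L
  induction L with
  | nil =>
    intro t h
    exact absurd h (by simp)
  | cons a L ih =>
    intro t h
    unfold blW
    rw [List.flatMap_cons]
    cases t with
    | zero =>
      rw [Nat.zero_mul, List.drop_zero, List.take_left' (hf a)]
      rfl
    | succ t =>
      have h' : t < L.length := by simpa using h
      have e : (t + 1) * q = q + t * q := by ring
      rw [e, ← List.drop_drop, List.drop_left' (hf a)]
      exact ih t h'

theorem len_fm {α : Type} (f : α → Word) (q : ℕ) (hf : ∀ a, (f a).length = q) (L : List α) :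
    (L.flatMap f).length = L.length * q := by
  induction L with
  | nil => simp
  | cons a L ih =>
    rw [List.flatMap_cons, List.length_append, ih, hf, List.length_cons]
    ring

/-- words with equal blocks are equal -/
theorem ext_blk (q : ℕ) : ∀ (N : ℕ) (w w' : Word), w.length = N * q → w'.length = N * q →
    (∀ t < N, blW q w t = blW q w' t) → w = w' := by
  intro N
  induction N with
  | zero =>
    intro w w' h h' _
    rw [Nat.zero_mul, List.length_eq_zero_iff] at h h'
    rw [h, h']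
  | succ N ih =>
    intro w w' h h' hb
    have h0 := hb 0 (Nat.succ_pos N)
    unfold blW at h0
    rw [Nat.zero_mul, List.drop_zero, List.drop_zero] at h0
    have h1 : w.drop q = w'.drop q := by
      refine ih _ _ ?_ ?_ ?_
      · rw [List.length_drop, h, Nat.succ_mul, Nat.add_sub_cancel]
      · rw [List.length_drop, h', Nat.succ_mul, Nat.add_sub_cancel]
      · intro t ht
        have h2 := hb (t + 1) (by omega)
        unfold blW at h2 ⊢
        have e : (t + 1) * q = q + t * q := by ring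
        rw [e, ← List.drop_drop, ← List.drop_drop] at h2
        exact h2
    rw [← List.take_append_drop q w, ← List.take_append_drop q w', h0, h1]

section
variable (F : Type) [Field F] [Fintype F] [DecidableEq F]

theorem cF_len (a : F) : (cF F a).length = Fintype.card F := by
  unfold cF
  rw [List.length_map, List.length_range]

theorem cF_inj {a b : F} (h : cF F a = cF F b) : a = b := by
  have ha : (eF F a : ℕ) < Fintype.card F := (eF F a).2
  have h1 : (cF F a)[(eF F a : ℕ)]'(by rw [cF_len]; exact ha) =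
      (cF F b)[(eF F a : ℕ)]'(by rw [cF_len]; exact ha) := by
    simp only [h]
  unfold cF at h1
  rw [List.getElem_map, List.getElem_map, List.getElem_range, decide_eq_true (rfl)] at h1
  have h2 : ((eF F a : ℕ)) = (eF F b : ℕ) := of_decide_eq_true h1.symm
  exact (eF F).injective (Fin.ext h2)

theorem dF_cF (a : F) : dF F (cF F a) = a := by
  unfold dF
  have h : ∃ b, cF F b = cF F a := ⟨a, rfl⟩
  rw [dif_pos h]
  exact cF_inj F h.choose_spec

theorem okF_iff (w : Word) : okF F w = true ↔ ∃ a, cF F a = w := by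
  unfold okF
  exact decide_eq_true_iff

theorem cF_dF {w : Word} (h : okF F w = true) : cF F (dF F w) = w := by
  obtain ⟨a, rfl⟩ := (okF_iff F w).1 h
  rw [dF_cF]

theorem encF_len {n : ℕ} (A : Matrix (Fin n) (Fin n) F) :
    (encF F A).length = n * n * Fintype.card F := by
  unfold encF
  rw [len_fm _ _ (fun r => cF_len F _), List.length_finRange]

theorem encF_blk {n : ℕ} (A : Matrix (Fin n) (Fin n) F) (t : ℕ) (ht : t < n * n) :
    blW (Fintype.card F) (encF F A) t =
      cF F (A (Fin.divNat ⟨t, ht⟩) (Fin.modNat ⟨t, ht⟩)) := by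
  unfold encF
  have ht' : t < (List.finRange (n * n)).length := by rw [List.length_finRange]; exact ht
  rw [blk _ _ (fun r => cF_len F _) _ t ht']
  have e : (List.finRange (n * n))[t] = ⟨t, ht⟩ := by
    rw [List.getElem_finRange]
    rfl
  rw [e]

theorem gF_encF {n : ℕ} (A : Matrix (Fin n) (Fin n) F) {i j : ℕ} (hi : i < n) (hj : j < n) :
    gF F n (encF F A) i j = A ⟨i, hi⟩ ⟨j, hj⟩ := by
  unfold gF
  rw [encF_blk F A _ (COS.H13.pos_lt hi hj), dF_cF]
  have h1 : Fin.divNat (⟨i * n + j, COS.H13.pos_lt hi hj⟩ : Fin (n * n)) = ⟨i, hi⟩ :=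
    Fin.ext (COS.H13.div_eq hj)
  have h2 : Fin.modNat (⟨i * n + j, COS.H13.pos_lt hi hj⟩ : Fin (n * n)) = ⟨j, hj⟩ :=
    Fin.ext (COS.H13.mod_eq hj)
  rw [h1, h2]

theorem okM_encF {n : ℕ} (A : Matrix (Fin n) (Fin n) F) : okM F n (encF F A) = true := by
  unfold okM
  rw [Bool.and_eq_true, decide_eq_true_iff, decide_eq_true_iff]
  refine ⟨encF_len F A, ?_⟩
  intro t ht
  rw [encF_blk F A t ht, okF_iff]
  exact ⟨_, rfl⟩

theorem encF_surj {n : ℕ} (w : Word) (h : okM F n w = true) :
    ∃ A : Matrix (Fin n) (Fin n) F, encF F A = w := by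
  unfold okM at h
  rw [Bool.and_eq_true, decide_eq_true_iff, decide_eq_true_iff] at h
  obtain ⟨h1, h2⟩ := h
  refine ⟨Matrix.of fun i j => dF F (blW (Fintype.card F) w (i * n + j)), ?_⟩
  refine ext_blk (Fintype.card F) (n * n) _ _ (encF_len F _) h1 ?_
  intro t ht
  rw [encF_blk F _ t ht, Matrix.of_apply]
  have e : ((Fin.divNat (⟨t, ht⟩ : Fin (n * n)) : Fin n) : ℕ) * n +
      ((Fin.modNat (⟨t, ht⟩ : Fin (n * n)) : Fin n) : ℕ) = t := by
    show t / n * n + t % n = t
    exact Nat.div_add_mod' t n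
  rw [e]
  exact cF_dF F (h2 t ht)

theorem encF_inj {n : ℕ} (A B : Matrix (Fin n) (Fin n) F) (h : encF F A = encF F B) :
    A = B := by
  ext i j
  have h1 := gF_encF F A i.2 j.2
  rw [h, gF_encF F B i.2 j.2] at h1
  exact h1.symm

theorem invW_iff {n : ℕ} (A B : Matrix (Fin n) (Fin n) F) :
    invW F n (encF F A) (encF F B) = true ↔ A * B = 1 := by
  unfold invW
  simp only [decide_eq_true_eq]
  have key : ∀ i j : Fin n, (∑ l ∈ Finset.range n, gF F n (encF F A) i l *
      gF F n (encF F B) l j) = (A * B) i j := by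
    intro i j
    rw [Finset.sum_range, Matrix.mul_apply]
    refine Finset.sum_congr rfl fun l _ => ?_
    rw [gF_encF F A i.2 l.2, gF_encF F B l.2 j.2]
  constructor
  · intro h
    ext i j
    rw [← key i j, h i i.2 j j.2, Matrix.one_apply]
    by_cases hij : i = j
    · rw [if_pos (by rw [hij]), if_pos hij]
    · rw [if_neg (fun hh => hij (Fin.ext hh)), if_neg hij]
  · intro h i hi j hj
    have h1 := key ⟨i, hi⟩ ⟨j, hj⟩
    rw [h, Matrix.one_apply] at h1
    rw [h1]
    by_cases hij : i = j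
    · rw [if_pos (Fin.ext hij), if_pos hij]
    · rw [if_neg (fun hh => hij (congrArg Fin.val hh)), if_neg hij]

theorem cnnW_iff {n : ℕ} (A : Matrix (Fin n) (Fin n) F) :
    cnnW F n (encF F A) = true ↔ Cnn A := by
  unfold cnnW Cnn Nrm LtC
  simp only [Bool.and_eq_true, Bool.or_eq_true, Bool.not_eq_true', decide_eq_true_eq,
    decide_eq_false_iff_not]
  constructor
  · rintro ⟨h1, h2⟩
    refine ⟨?_, ?_⟩
    · intro i j h0 hne
      rcases h1 j j.2 i i.2 with (h | h) | h
      · exfalso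
        apply h
        intro i' hi'
        rw [gF_encF F A (lt_trans hi' i.2) j.2]
        exact h0 ⟨i', lt_trans hi' i.2⟩ hi'
      · rw [gF_encF F A i.2 j.2] at h
        exact absurd h hne
      · rw [gF_encF F A i.2 j.2] at h
        exact h
    · intro j j' hjj
      rcases h2 j j.2 j' j'.2 with h | ⟨i, hi, h3, h4⟩
      · exact absurd hjj h
      · refine ⟨⟨i, hi⟩, ?_, ?_⟩
        · intro i' hi'
          have h5 := h3 i' hi'
          rw [gF_encF F A i'.2 j.2, gF_encF F A i'.2 j'.2] at h5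
          exact h5
        · rw [gF_encF F A hi j.2, gF_encF F A hi j'.2] at h4
          exact h4
  · rintro ⟨h1, h2⟩
    refine ⟨?_, ?_⟩
    · intro j hj i hi
      rw [gF_encF F A hi hj]
      by_cases h0 : ∀ i' < i, gF F n (encF F A) i' j = 0
      · by_cases hz : A ⟨i, hi⟩ ⟨j, hj⟩ = 0
        · exact Or.inl (Or.inr hz)
        · refine Or.inr (h1 _ _ ?_ hz)
          intro i' hi'
          have h3 := h0 i' hi'
          rw [gF_encF F A i'.2 hj] at h3
          exact h3
      · exact Or.inl (Or.inl h0)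
    · intro j hj j' hj'
      by_cases hjj : j < j'
      · right
        obtain ⟨i, h3, h4⟩ := h2 ⟨j, hj⟩ ⟨j', hj'⟩ hjj
        refine ⟨i, i.2, ?_, ?_⟩
        · intro i' hi'
          have hin : i' < n := lt_trans hi' i.2
          rw [gF_encF F A hin hj, gF_encF F A hin hj']
          exact h3 ⟨i', hin⟩ hi'
        · rw [gF_encF F A i.2 hj, gF_encF F A i.2 hj']
          exact h4
      · exact Or.inl hjj

theorem monW_iff {n : ℕ} (A : Matrix (Fin n) (Fin n) F) :
    monW F n (encF F A) = true ↔ IsMon A := by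
  unfold monW
  simp only [Bool.and_eq_true, Bool.or_eq_true, Bool.not_eq_true', decide_eq_true_eq,
    decide_eq_false_iff_not]
  constructor
  · rintro ⟨h1, h2⟩
    have h3 : ∀ j : Fin n, ∃ i : Fin n, A i j ≠ 0 ∧ ∀ i' : Fin n, i' = i ∨ A i' j = 0 := by
      intro j
      obtain ⟨i, hi, h4, h5⟩ := h1 j j.2
      rw [gF_encF F A hi j.2] at h4
      refine ⟨⟨i, hi⟩, h4, ?_⟩
      intro i'
      rcases h5 i' i'.2 with h6 | h6
      · exact Or.inl (Fin.ext h6)
      · rw [gF_encF F A i'.2 j.2] at h6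
        exact Or.inr h6
    choose f hf1 hf2 using h3
    have hs : Function.Surjective f := by
      intro i
      obtain ⟨j, hj, h4⟩ := h2 i i.2
      rw [gF_encF F A i.2 hj] at h4
      refine ⟨⟨j, hj⟩, ?_⟩
      rcases hf2 ⟨j, hj⟩ i with h5 | h5
      · exact h5.symm
      · exact absurd h5 h4
    refine ⟨Equiv.ofBijective f (Finite.surjective_iff_bijective.1 hs),
      fun j => Units.mk0 _ (hf1 j), ?_⟩
    intro i j
    have e : Equiv.ofBijective f (Finite.surjective_iff_bijective.1 hs) j = f j := rfl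
    rw [e, Units.val_mk0]
    by_cases hij : i = f j
    · rw [if_pos hij, hij]
    · rw [if_neg hij]
      rcases hf2 j i with h5 | h5
      · exact absurd h5 hij
      · exact h5
  · rintro ⟨π, ζ, hM⟩
    refine ⟨?_, ?_⟩
    · intro j hj
      refine ⟨π ⟨j, hj⟩, (π ⟨j, hj⟩).2, ?_, ?_⟩
      · rw [gF_encF F A (π ⟨j, hj⟩).2 hj, hM, if_pos rfl]
        exact (ζ ⟨j, hj⟩).ne_zero
      · intro i' hi'
        by_cases h : i' = (π ⟨j, hj⟩ : ℕ)
        · exact Or.inl h
        · right
          rw [gF_encF F A hi' hj, hM, if_neg]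
          intro hh
          exact h (congrArg Fin.val hh)
    · intro i hi
      refine ⟨π.symm ⟨i, hi⟩, (π.symm ⟨i, hi⟩).2, ?_⟩
      rw [gF_encF F A hi (π.symm ⟨i, hi⟩).2, hM, if_pos]
      · exact (ζ _).ne_zero
      · rw [Fin.eta, Equiv.apply_symm_apply]

theorem rhoW_iff {n : ℕ} (M : Matrix (Fin n) (Fin n) F)
    (B : Matrix (Fin (n * Fintype.card F)) (Fin (n * Fintype.card F)) (ZMod 2)) :
    rhoW F n (encF F M) (COS.enc B) = true ↔ B = rho M := by
  unfold rhoW
  simp only [Bool.and_eq_true, decide_eq_true_eq]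
  have hlt : ∀ {i s : ℕ}, i < n → s < Fintype.card F →
      i * Fintype.card F + s < n * Fintype.card F := by
    intro i s hi hs
    calc i * Fintype.card F + s < i * Fintype.card F + Fintype.card F := by omega
      _ = (i + 1) * Fintype.card F := by ring
      _ ≤ n * Fintype.card F := Nat.mul_le_mul_right _ hi
  have hnF : ∀ (s : ℕ) (hs : s < Fintype.card F), nF F s = (eF F).symm ⟨s, hs⟩ := by
    intro s hs
    unfold nF
    rw [dif_pos hs]
  have hr : ∀ (i j s t : ℕ) (hi : i < n) (hj : j < n) (hs : s < Fintype.card F)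
      (ht : t < Fintype.card F), rho M ⟨i * Fintype.card F + s, hlt hi hs⟩
        ⟨j * Fintype.card F + t, hlt hj ht⟩ = if M ⟨i, hi⟩ ⟨j, hj⟩ ≠ 0 ∧ (eF F).symm ⟨s, hs⟩ =
          M ⟨i, hi⟩ ⟨j, hj⟩ * (eF F).symm ⟨t, ht⟩ then 1 else 0 := by
    intro i j s t hi hj hs ht
    have d1 : Fin.divNat (⟨i * Fintype.card F + s, hlt hi hs⟩ : Fin (n * Fintype.card F)) =
        ⟨i, hi⟩ := Fin.ext (COS.H13.div_eq hs)
    have d2 : Fin.divNat (⟨j * Fintype.card F + t, hlt hj ht⟩ : Fin (n * Fintype.card F)) =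
        ⟨j, hj⟩ := Fin.ext (COS.H13.div_eq ht)
    have d3 : Fin.modNat (⟨i * Fintype.card F + s, hlt hi hs⟩ : Fin (n * Fintype.card F)) =
        ⟨s, hs⟩ := Fin.ext (COS.H13.mod_eq hs)
    have d4 : Fin.modNat (⟨j * Fintype.card F + t, hlt hj ht⟩ : Fin (n * Fintype.card F)) =
        ⟨t, ht⟩ := Fin.ext (COS.H13.mod_eq ht)
    unfold rho
    rw [Matrix.of_apply, d1, d2, d3, d4]
  constructor
  · rintro ⟨-, h⟩
    ext r s
    have hq : 0 < Fintype.card F := Fintype.card_pos
    have er : r = ⟨(r.divNat : Fin n) * Fintype.card F + (r.modNat : Fin (Fintype.card F)),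
        hlt r.divNat.2 r.modNat.2⟩ := Fin.ext (Nat.div_add_mod' _ _).symm
    have es : s = ⟨(s.divNat : Fin n) * Fintype.card F + (s.modNat : Fin (Fintype.card F)),
        hlt s.divNat.2 s.modNat.2⟩ := Fin.ext (Nat.div_add_mod' _ _).symm
    have h1 := h r.divNat r.divNat.2 s.divNat s.divNat.2 r.modNat r.modNat.2 s.modNat s.modNat.2
    rw [COS.H13.gt_enc B (hlt r.divNat.2 r.modNat.2) (hlt s.divNat.2 s.modNat.2),
      gF_encF F M r.divNat.2 s.divNat.2, hnF _ r.modNat.2, hnF _ s.modNat.2] at h1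
    rw [er, es, hr _ _ _ _ r.divNat.2 s.divNat.2 r.modNat.2 s.modNat.2]
    have h2 := decide_eq_decide.1 h1
    apply COS.H13.z2_ext
    rw [h2]
    by_cases hc : M ⟨(r.divNat : Fin n), r.divNat.2⟩ ⟨(s.divNat : Fin n), s.divNat.2⟩ ≠ 0 ∧
        (eF F).symm ⟨(r.modNat : Fin (Fintype.card F)), r.modNat.2⟩ =
          M ⟨(r.divNat : Fin n), r.divNat.2⟩ ⟨(s.divNat : Fin n), s.divNat.2⟩ *
            (eF F).symm ⟨(s.modNat : Fin (Fintype.card F)), s.modNat.2⟩
    · rw [if_pos hc]
      exact ⟨fun _ => rfl, fun _ => hc⟩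
    · rw [if_neg hc]
      exact ⟨fun h => absurd h hc, fun h => absurd h (by decide)⟩
  · rintro rfl
    refine ⟨COS.H13.len_enc _, ?_⟩
    intro i hi j hj s hs t ht
    rw [COS.H13.gt_enc _ (hlt hi hs) (hlt hj ht), gF_encF F M hi hj, hnF _ hs, hnF _ ht,
      hr i j s t hi hj hs ht, decide_eq_decide]
    by_cases hc : M ⟨i, hi⟩ ⟨j, hj⟩ ≠ 0 ∧ (eF F).symm ⟨s, hs⟩ =
        M ⟨i, hi⟩ ⟨j, hj⟩ * (eF F).symm ⟨t, ht⟩
    · rw [if_pos hc]
      exact ⟨fun _ => hc, fun _ => rfl⟩
    · rw [if_neg hc]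
      exact ⟨fun h => absurd h (by decide), fun h => absurd h hc⟩

end

theorem wdf : WdfStmt := by
  intro F _ _ _ n
  refine ⟨fun A => ⟨encF_len F A, okM_encF F A, fun i j => ?_⟩, fun w h => encF_surj F w h,
    fun A B h => encF_inj F A B h, fun A B => invW_iff F A B, fun A => cnnW_iff F A,
    fun A => monW_iff F A, fun M B => rhoW_iff F M B⟩
  exact gF_encF F A i.2 j.2

end Pool.Agent.COSB.H77
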