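import Pool.Agent.COSB.StmtsL
import Pool.Agent.Helper13_COS.WRA

/-!
# Squad COSB, row ENZ (MP_0fc649_lc): words of integer matrices
-/

set_option autoImplicit false

namespace Pool.Agent.COSB.H77

open Turing Computability Pool.Agent.UT.Num Pool.Agent.H2XG Pool.Agent.PAR Pool.Agent.COS Matrix
open Pool.Agent.COSB

/-- words with equal blocks are equal -/
theorem ext_blkZ (q : ℕ) : ∀ (N : ℕ) (w w' : Word), w.length = N * q → w'.length = N * q →
    (∀ t < N, (w.drop (t * q)).take q = (w'.drop (t * q)).take q) → w = w' := by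
  intro N
  induction N with
  | zero =>
    intro w w' h h' _
    rw [Nat.zero_mul, List.length_eq_zero_iff] at h h'
    rw [h, h']
  | succ N ih =>
    intro w w' h h' hb
    have h0 := hb 0 (Nat.succ_pos N)
    rw [Nat.zero_mul, List.drop_zero, List.drop_zero] at h0
    have h1 : w.drop q = w'.drop q := by
      refine ih _ _ ?_ ?_ ?_
      · rw [List.length_drop, h, Nat.succ_mul, Nat.add_sub_cancel]
      · rw [List.length_drop, h', Nat.succ_mul, Nat.add_sub_cancel]
      · intro t ht
        have h2 := hb (t + 1) (by omega)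
        have e : (t + 1) * q = q + t * q := by ring
        rw [e, ← List.drop_drop, ← List.drop_drop] at h2
        exact h2
    rw [← List.take_append_drop q w, ← List.take_append_drop q w', h0, h1]

theorem encZ_len {n : ℕ} (w : ℕ) (U : Matrix (Fin n) (Fin n) ℤ) :
    (encZ w U).length = n * n * (w + 1) := by
  unfold encZ
  rw [List.length_ofFn]

theorem bits_get (w : ℕ) (z : ℤ) (b : ℕ) (h : b < (LAT.bits w z).length) :
    (LAT.bits w z)[b] = z.testBit b := by
  simp [LAT.bits]

theorem encZ_get {n : ℕ} (w : ℕ) (U : Matrix (Fin n) (Fin n) ℤ) (t : ℕ)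
    (h : t < (encZ w U).length) (ht : t < n * n * (w + 1)) : (encZ w U)[t] =
      (U (Fin.divNat (Fin.divNat (⟨t, ht⟩ : Fin (n * n * (w + 1)))))
        (Fin.modNat (Fin.divNat (⟨t, ht⟩ : Fin (n * n * (w + 1)))))).testBit
          ((Fin.modNat (⟨t, ht⟩ : Fin (n * n * (w + 1))) : Fin (w + 1)) : ℕ) :=
  List.getElem_ofFn h

theorem encZ_blk {n : ℕ} (w : ℕ) (U : Matrix (Fin n) (Fin n) ℤ) (s : ℕ) (hs : s < n * n) :
    ((encZ w U).drop (s * (w + 1))).take (w + 1) =
      LAT.bits (w + 1) (U (Fin.divNat ⟨s, hs⟩) (Fin.modNat ⟨s, hs⟩)) := by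
  have hle : s * (w + 1) + (w + 1) ≤ n * n * (w + 1) := by
    calc s * (w + 1) + (w + 1) = (s + 1) * (w + 1) := by ring
      _ ≤ n * n * (w + 1) := Nat.mul_le_mul_right _ hs
  apply List.ext_getElem
  · rw [List.length_take, List.length_drop, encZ_len]
    unfold LAT.bits
    rw [List.length_map, List.length_range]
    omega
  · intro b h1 h2
    have hb : b < w + 1 := by
      unfold LAT.bits at h2
      rw [List.length_map, List.length_range] at h2
      exact h2
    have hlt : s * (w + 1) + b < n * n * (w + 1) := by omega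
    rw [List.getElem_take, List.getElem_drop, encZ_get w U _ _ hlt, bits_get]
    have d1 : Fin.divNat (⟨s * (w + 1) + b, hlt⟩ : Fin (n * n * (w + 1))) = ⟨s, hs⟩ :=
      Fin.ext (COS.H13.div_eq hb)
    have d2 : ((Fin.modNat (⟨s * (w + 1) + b, hlt⟩ : Fin (n * n * (w + 1))) : Fin (w + 1)) : ℕ) =
        b := COS.H13.mod_eq hb
    rw [d1, d2]

theorem enz (h1 : TbzStmt) (h2 : LAT.WdaStmt) (h3 : LAT.WdbStmt) : EnzStmt := by
  intro n w
  refine ⟨?_, ?_, ?_⟩
  · intro U
    refine ⟨?_, encZ_len w U⟩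
    unfold encZ enc2
    refine congrArg List.ofFn (funext fun t => ?_)
    rw [Matrix.map_apply]
    exact (h1 (w + 1) _ _ (t.modNat).2).symm
  · intro U i j hlo hhi
    unfold nz LAT.num
    rw [encZ_blk w U _ (COS.H13.pos_lt i.2 j.2)]
    have d1 : Fin.divNat (⟨(i : ℕ) * n + j, COS.H13.pos_lt i.2 j.2⟩ : Fin (n * n)) = i :=
      Fin.ext (COS.H13.div_eq j.2)
    have d2 : Fin.modNat (⟨(i : ℕ) * n + j, COS.H13.pos_lt i.2 j.2⟩ : Fin (n * n)) = j :=
      Fin.ext (COS.H13.mod_eq j.2)
    rw [d1, d2]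
    exact h2 w (U i j) hlo hhi
  · intro u hu
    have hlen : ∀ s < n * n, ((u.drop (s * (w + 1))).take (w + 1)).length = w + 1 := by
      intro s hs
      have hle : s * (w + 1) + (w + 1) ≤ n * n * (w + 1) := by
        calc s * (w + 1) + (w + 1) = (s + 1) * (w + 1) := by ring
          _ ≤ n * n * (w + 1) := Nat.mul_le_mul_right _ hs
      rw [List.length_take, List.length_drop, hu]
      omega
    refine ⟨?_, ?_⟩
    · refine ext_blkZ (w + 1) (n * n) _ _ (encZ_len w _) hu ?_
      intro t ht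
      rw [encZ_blk w _ t ht, Matrix.of_apply]
      have e : ((Fin.divNat (⟨t, ht⟩ : Fin (n * n)) : Fin n) : ℕ) * n +
          ((Fin.modNat (⟨t, ht⟩ : Fin (n * n)) : Fin n) : ℕ) = t := by
        show t / n * n + t % n = t
        exact Nat.div_add_mod' t n
      unfold nz LAT.num
      rw [e]
      exact (h3 _ w (hlen t ht)).1
    · intro i j
      unfold nz LAT.num
      exact (h3 _ w (hlen _ (COS.H13.pos_lt i.2 j.2))).2

end Pool.Agent.COSB.H77
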